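import Pool.Agent.H5.FL.Stm3

set_option autoImplicit false

open MeasureTheory ProbabilityTheory Filter Topology
open scoped NNReal ENNReal

universe u

namespace H31.FL
open H5.FL

section
variable {N : ℕ} {μ : ℝ} {Ω : Type u} [mΩ : MeasurableSpace Ω] {P : Measure Ω}

/-- density -/
noncomputable def WW (π : SPolicy N μ Ω P) (i : Fin N) (t : ℝ≥0) (ω : Ω) : ℝ :=
  Real.exp (-(lin μ (π.X t ω, clock π.J t ω) i))

/-- signal -/
noncomputable def YY (π : SPolicy N μ Ω P) (t : ℝ≥0) (ω : Ω) : ℝ := ∑ j, π.X t ω j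

/-- changed measure -/
noncomputable def QQ (π : SPolicy N μ Ω P) (i : Fin N) (t : ℝ≥0) : Measure Ω :=
  (P.restrict (π.jstar ⁻¹' {i})).withDensity (fun ω => ENNReal.ofReal (WW π i t ω))

/-- σ-algebra of the signal at the times of `S` -/
@[instance_reducible]
def GS (π : SPolicy N μ Ω P) (S : Set ℝ≥0) : MeasurableSpace Ω :=
  ⨆ s ∈ S, MeasurableSpace.comap (fun ω => ∑ j, π.X s ω j) inferInstance

lemma measE (π : SPolicy N μ Ω P) (i : Fin N) (s : ℝ≥0) :
    MeasurableSet[π.full s] (π.jstar ⁻¹' {i}) :=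
  π.full.mono zero_le _ (π.jstar_full (measurableSet_singleton i))

lemma measE' (π : SPolicy N μ Ω P) (i : Fin N) : MeasurableSet (π.jstar ⁻¹' {i}) :=
  π.full.le 0 _ (measE π i 0)

lemma measY (π : SPolicy N μ Ω P) (s : ℝ≥0) : Measurable[π.full s] (YY π s) := by
  have h : Measurable[π.full s] (π.X s) := (π.X_adapted s).mono (π.obs_le s) le_rfl
  unfold YY
  exact Finset.measurable_sum _ fun j _ => (measurable_pi_apply j).comp h

lemma measY' (π : SPolicy N μ Ω P) (s : ℝ≥0) : Measurable (YY π s) :=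
  (measY π s).mono (π.full.le s) le_rfl

lemma GS_le (π : SPolicy N μ Ω P) {S : Set ℝ≥0} {r : ℝ≥0} (h : ∀ x ∈ S, x ≤ r) :
    GS π S ≤ π.full r := by
  unfold GS
  refine iSup₂_le fun s hs => ?_
  refine le_trans ?_ (π.full.mono (h s hs))
  exact (measY π s).comap_le

lemma intW (hGIN : S_GIN.{u}) [IsProbabilityMeasure P] (π : SPolicy N μ Ω P) (i : Fin N)
    (t : ℝ≥0) : IntegrableOn (WW π i t) (π.jstar ⁻¹' {i}) P :=
  (integrable_indicator_iff (measE' π i)).1 (hGIN N μ Ω P π i t).1

lemma Wnn (π : SPolicy N μ Ω P) (i : Fin N) (t : ℝ≥0) (ω : Ω) : 0 ≤ WW π i t ω :=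
  (Real.exp_pos _).le

lemma Qapp (hGIN : S_GIN.{u}) [IsProbabilityMeasure P] (π : SPolicy N μ Ω P) (i : Fin N)
    (t : ℝ≥0) {A : Set Ω} (hA : MeasurableSet A) :
    QQ π i t A = ENNReal.ofReal (∫ ω in A ∩ π.jstar ⁻¹' {i}, WW π i t ω ∂P) := by
  unfold QQ
  rw [withDensity_apply _ hA, Measure.restrict_restrict hA, ofReal_integral_eq_lintegral_ofReal
    ((intW hGIN π i t).mono_set Set.inter_subset_right)
    (Filter.Eventually.of_forall fun ω => Wnn π i t ω)]

lemma Qfin (hGIN : S_GIN.{u}) [IsProbabilityMeasure P] (π : SPolicy N μ Ω P) (i : Fin N)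
    (t : ℝ≥0) : IsFiniteMeasure (QQ π i t) := by
  constructor
  rw [Qapp hGIN π i t MeasurableSet.univ]
  exact ENNReal.ofReal_lt_top

lemma Qint (hGIN : S_GIN.{u}) [IsProbabilityMeasure P] (π : SPolicy N μ Ω P) (i : Fin N)
    (t : ℝ≥0) {A : Set Ω} (hA : MeasurableSet A) (g : Ω → ℝ) :
    ∫ ω in A, g ω ∂(QQ π i t) = ∫ ω in A ∩ π.jstar ⁻¹' {i}, WW π i t ω * g ω ∂P := by
  unfold QQ
  rw [restrict_withDensity hA, Measure.restrict_restrict hA,
    integral_withDensity_eq_integral_toReal_smul₀]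
  · refine integral_congr_ae (Filter.Eventually.of_forall fun ω => ?_)
    simp only [smul_eq_mul]
    rw [ENNReal.toReal_ofReal (Wnn π i t ω)]
  · exact ((intW hGIN π i t).mono_set
      Set.inter_subset_right).aestronglyMeasurable.aemeasurable.ennreal_ofReal
  · exact Filter.Eventually.of_forall fun ω => ENNReal.ofReal_lt_top

lemma shift (hONE : S_ONE.{u}) [IsProbabilityMeasure P] (π : SPolicy N μ Ω P) (i : Fin N)
    {s t : ℝ≥0} (hst : s ≤ t) {A : Set Ω} (hA : MeasurableSet[π.full s] A) :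
    ∫ ω in A ∩ π.jstar ⁻¹' {i}, WW π i t ω ∂P = ∫ ω in A ∩ π.jstar ⁻¹' {i}, WW π i s ω ∂P := by
  have h := hONE N μ Ω P π i 0 0 s t hst (A ∩ π.jstar ⁻¹' {i})
    (@MeasurableSet.inter _ (π.full s) _ _ hA (measE π i s)) Set.inter_subset_right
  simpa [WW] using h

lemma one (hGIN : S_GIN.{u}) (hONE : S_ONE.{u}) [IsProbabilityMeasure P] (π : SPolicy N μ Ω P)
    (i : Fin N) {s t : ℝ≥0} (hst : s ≤ t) (θ α : ℝ) {A : Set Ω} (hA : MeasurableSet[π.full s] A) :
    ∫ ω in A, Real.cos (θ * YY π t ω + α) ∂(QQ π i t) =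
      Real.exp (-(1 / 2) * θ ^ 2 * ((t : ℝ) - s)) *
        ∫ ω in A, Real.cos (θ * YY π s ω + α) ∂(QQ π i s) := by
  rw [Qint hGIN π i t (π.full.le s _ hA), Qint hGIN π i s (π.full.le s _ hA)]
  exact hONE N μ Ω P π i θ α s t hst (A ∩ π.jstar ⁻¹' {i})
    (@MeasurableSet.inter _ (π.full s) _ _ hA (measE π i s)) Set.inter_subset_right

/-- agreement on a sub-σ-algebra gives agreement of integrals -/
lemma agree (hGIN : S_GIN.{u}) [IsProbabilityMeasure P] (π : SPolicy N μ Ω P) (i k : Fin N)
    (s : ℝ≥0) (S : Set ℝ≥0) (hm : GS π S ≤ mΩ)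
    (h : ∀ A, MeasurableSet[GS π S] A → QQ π i s A = QQ π k s A) {g : Ω → ℝ}
    (hg : Measurable[GS π S] g) {A : Set Ω} (hA : MeasurableSet[GS π S] A) :
    ∫ ω in A, g ω ∂(QQ π i s) = ∫ ω in A, g ω ∂(QQ π k s) := by
  have hG : StronglyMeasurable[GS π S] (A.indicator g) :=
    (hg.indicator hA).stronglyMeasurable
  rw [← integral_indicator (hm _ hA), ← integral_indicator (hm _ hA), integral_trim hm hG,
    integral_trim hm hG]
  congr 1
  refine @Measure.ext _ (GS π S) _ _ fun B hB => ?_
  rw [trim_measurableSet_eq hm hB, trim_measurableSet_eq hm hB, h B hB]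

/-- extension from the π-system of cylinders -/
lemma extend (hGIN : S_GIN.{u}) [IsProbabilityMeasure P] (π : SPolicy N μ Ω P) (i k : Fin N)
    (r : ℝ≥0) (S : Set ℝ≥0) (hm : GS π S ≤ mΩ)
    (h : ∀ A ∈ piiUnionInter (fun s : ℝ≥0 =>
      {A | MeasurableSet[MeasurableSpace.comap (fun ω => ∑ j, π.X s ω j) inferInstance] A}) S,
      QQ π i r A = QQ π k r A) (hu : QQ π i r Set.univ = QQ π k r Set.univ) :
    ∀ A, MeasurableSet[GS π S] A → QQ π i r A = QQ π k r A := by
  intro A hA
  haveI := Qfin hGIN π i r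
  have hgen := generateFrom_piiUnionInter_measurableSet (fun s : ℝ≥0 =>
    MeasurableSpace.comap (fun ω => ∑ j, π.X s ω j) inferInstance) S
  have hin : ∀ B ∈ piiUnionInter (fun s : ℝ≥0 =>
      {A | MeasurableSet[MeasurableSpace.comap (fun ω => ∑ j, π.X s ω j) inferInstance] A}) S,
      MeasurableSet[GS π S] B := by
    intro B hB
    unfold GS
    rw [← hgen]
    exact MeasurableSpace.measurableSet_generateFrom hB
  haveI : IsFiniteMeasure ((QQ π i r).trim hm) := isFiniteMeasure_trim hm
  have key : (QQ π i r).trim hm = (QQ π k r).trim hm := by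
    refine @ext_of_generate_finite _ (GS π S) _ _ _ hgen.symm
      (isPiSystem_piiUnionInter _ (fun s => @MeasurableSpace.isPiSystem_measurableSet _
        (MeasurableSpace.comap (fun ω => ∑ j, π.X s ω j) inferInstance)) S) _ ?_ ?_
    · intro B hB
      rw [trim_measurableSet_eq hm (hin B hB), trim_measurableSet_eq hm (hin B hB), h B hB]
    · rw [trim_measurableSet_eq hm (@MeasurableSet.univ _ (GS π S)),
        trim_measurableSet_eq hm (@MeasurableSet.univ _ (GS π S)), hu]
  have h2 : (QQ π i r).trim hm A = (QQ π k r).trim hm A := by rw [key]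
  rwa [trim_measurableSet_eq hm hA, trim_measurableSet_eq hm hA] at h2

/-- complex exponential by cosines -/
lemma cexp_int (m : Measure Ω) [IsFiniteMeasure m] {g : Ω → ℝ} (hg : Measurable g) (θ : ℝ) :
    ∫ ω, Complex.exp ((θ : ℂ) * (g ω : ℂ) * Complex.I) ∂m =
      ((∫ ω, Real.cos (θ * g ω + 0) ∂m : ℝ) : ℂ) +
        ((∫ ω, Real.cos (θ * g ω + (-(Real.pi / 2))) ∂m : ℝ) : ℂ) * Complex.I := by
  have hb : ∀ α : ℝ, Integrable (fun ω => Real.cos (θ * g ω + α)) m := fun α =>
    Integrable.of_bound ((Real.continuous_cos.measurable.comp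
      ((measurable_const.mul hg).add measurable_const)).aestronglyMeasurable) 1
      (Filter.Eventually.of_forall fun ω => by
        rw [Real.norm_eq_abs]; exact Real.abs_cos_le_one _)
  rw [← integral_complex_ofReal, ← integral_complex_ofReal, ← integral_mul_const,
    ← integral_add (hb 0).ofReal ((hb _).ofReal.mul_const _)]
  refine integral_congr_ae (Filter.Eventually.of_forall fun ω => ?_)
  simp only
  rw [Complex.exp_mul_I, add_zero, ← sub_eq_add_neg, Real.cos_sub_pi_div_two]
  push_cast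
  rfl

lemma cyl (hGIN : S_GIN.{u}) (hONE : S_ONE.{u}) [IsProbabilityMeasure P] (π : SPolicy N μ Ω P)
    (i k : Fin N) (S : Set ℝ≥0) {s a : ℝ≥0} (hs : ∀ x ∈ S, x ≤ s) (hsa : s ≤ a)
    (hY : Measurable[GS π S] (YY π s))
    (h : ∀ A, MeasurableSet[GS π S] A → QQ π i s A = QQ π k s A) {A : Set Ω}
    (hA : MeasurableSet[GS π S] A) {B : Set ℝ} (hB : MeasurableSet B) :
    QQ π i a (YY π a ⁻¹' B ∩ A) = QQ π k a (YY π a ⁻¹' B ∩ A) := by
  have hle := GS_le π hs
  have hm : GS π S ≤ mΩ := hle.trans (π.full.le s)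
  have hA' : MeasurableSet A := hm _ hA
  haveI := Qfin hGIN π i a
  haveI := Qfin hGIN π k a
  have hcos : ∀ θ α : ℝ, ∫ ω in A, Real.cos (θ * YY π a ω + α) ∂(QQ π i a) =
      ∫ ω in A, Real.cos (θ * YY π a ω + α) ∂(QQ π k a) := by
    intro θ α
    rw [one hGIN hONE π i hsa θ α (hle _ hA), one hGIN hONE π k hsa θ α (hle _ hA)]
    congr 1
    exact agree hGIN π i k s S hm h (Real.continuous_cos.measurable.comp
      ((measurable_const.mul hY).add measurable_const)) hA
  have hmap : ((QQ π i a).restrict A).map (YY π a) = ((QQ π k a).restrict A).map (YY π a) := by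
    haveI : IsFiniteMeasure (((QQ π i a).restrict A).map (YY π a)) :=
      Measure.isFiniteMeasure_map _ _
    haveI : IsFiniteMeasure (((QQ π k a).restrict A).map (YY π a)) :=
      Measure.isFiniteMeasure_map _ _
    apply Measure.ext_of_charFun
    funext θ
    have hc : Continuous (fun x : ℝ => Complex.exp ((θ : ℂ) * (x : ℂ) * Complex.I)) := by
      fun_prop
    rw [charFun_apply_real, charFun_apply_real,
      integral_map (measY' π a).aemeasurable hc.aestronglyMeasurable,
      integral_map (measY' π a).aemeasurable hc.aestronglyMeasurable,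
      cexp_int _ (measY' π a), cexp_int _ (measY' π a), hcos, hcos]
  have h2 : ((QQ π i a).restrict A).map (YY π a) B = ((QQ π k a).restrict A).map (YY π a) B := by
    rw [hmap]
  rwa [Measure.map_apply (measY' π a) hB, Measure.map_apply (measY' π a) hB,
    Measure.restrict_apply (measY' π a hB), Measure.restrict_apply (measY' π a hB)] at h2

lemma start (hONE : S_ONE.{u}) [IsProbabilityMeasure P] (π : SPolicy N μ Ω P)
    (i : Fin N) (r : ℝ≥0) : ∫ ω in Set.univ ∩ π.jstar ⁻¹' {i}, WW π i r ω ∂P =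
      ((N : ℝ≥0∞)⁻¹).toReal := by
  rw [shift hONE π i zero_le (@MeasurableSet.univ _ (π.full 0)), Set.univ_inter]
  have h0 : ∀ ω, WW π i 0 ω = 1 := by
    intro ω
    unfold WW H5.FL.lin clock
    simp [π.X_zero]
  simp only [h0, integral_const, smul_eq_mul, mul_one]
  rw [Measure.real, Measure.restrict_apply_univ, π.prior]

lemma finR (hGIN : S_GIN.{u}) (hONE : S_ONE.{u}) [IsProbabilityMeasure P] (π : SPolicy N μ Ω P)
    (I : Finset ℝ≥0) : ∀ r : ℝ≥0, (∀ x ∈ I, x ≤ r) → ∀ i k : Fin N, ∀ A,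
      MeasurableSet[GS π (I : Set ℝ≥0)] A → QQ π i r A = QQ π k r A := by
  classical
  induction I using Finset.induction_on_max with
  | empty =>
    intro r _ i k A hA
    have hbot : GS π ((∅ : Finset ℝ≥0) : Set ℝ≥0) = ⊥ := by
      unfold GS
      simp
    rw [hbot] at hA
    rcases MeasurableSpace.measurableSet_bot_iff.1 hA with rfl | rfl
    · simp
    · rw [Qapp hGIN π i r MeasurableSet.univ, Qapp hGIN π k r MeasurableSet.univ,
        start hONE, start hONE]
  | insert a I hlt ih =>
    have hle1 : ∀ x ∈ ((insert a I : Finset ℝ≥0) : Set ℝ≥0), x ≤ a := by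
      intro x hx
      rcases Finset.mem_insert.1 (Finset.mem_coe.1 hx) with rfl | h
      · exact le_rfl
      · exact (hlt x h).le
    have hgs := GS_le π hle1
    have hm : GS π ((insert a I : Finset ℝ≥0) : Set ℝ≥0) ≤ mΩ := hgs.trans (π.full.le a)
    -- the case `r = a`
    have hmain : ∀ i k : Fin N, ∀ A, MeasurableSet[GS π ((insert a I : Finset ℝ≥0) : Set ℝ≥0)] A →
        QQ π i a A = QQ π k a A := by
      intro i k
      obtain ⟨s, hs, hsa, hY⟩ : ∃ s : ℝ≥0, (∀ x ∈ (I : Set ℝ≥0), x ≤ s) ∧ s ≤ a ∧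
          Measurable[GS π (I : Set ℝ≥0)] (YY π s) := by
        by_cases hI : I.Nonempty
        · refine ⟨I.max' hI, fun x hx => I.le_max' x hx, (hlt _ (I.max'_mem hI)).le, ?_⟩
          have h1 : MeasurableSpace.comap (YY π (I.max' hI)) inferInstance ≤
              GS π (I : Set ℝ≥0) := by
            unfold GS
            exact le_iSup₂_of_le (I.max' hI) (I.max'_mem hI) le_rfl
          exact (comap_measurable (YY π (I.max' hI))).mono h1 le_rfl
        · rw [Finset.not_nonempty_iff_eq_empty] at hI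
          refine ⟨0, by simp [hI], zero_le, ?_⟩
          have h1 : YY π 0 = fun _ => 0 := by
            funext ω
            simp [YY, π.X_zero]
          rw [h1]
          exact measurable_const
      have hIH := ih s hs i k
      have hI_le : GS π (I : Set ℝ≥0) ≤ mΩ := (GS_le π hs).trans (π.full.le s)
      apply extend hGIN π i k a _ hm
      · rintro B ⟨T, hT, f, hf, rfl⟩
        -- split off the last time
        have hset : (⋂ x ∈ T, f x) = (if a ∈ T then f a else Set.univ) ∩
            ⋂ x ∈ T.erase a, f x := by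
          ext ω
          simp only [Set.mem_iInter, Set.mem_inter_iff, Finset.mem_erase]
          constructor
          · intro h
            refine ⟨?_, fun x hx => h x hx.2⟩
            split_ifs with haT
            · exact h a haT
            · trivial
          · rintro ⟨h1, h2⟩ x hx
            by_cases hxa : x = a
            · subst hxa
              rw [if_pos hx] at h1
              exact h1
            · exact h2 x ⟨hxa, hx⟩
        have hfa : ∃ B : Set ℝ, MeasurableSet B ∧
            (if a ∈ T then f a else Set.univ) = YY π a ⁻¹' B := by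
          split_ifs with haT
          · obtain ⟨B, hB, hBe⟩ := hf a haT
            exact ⟨B, hB, hBe.symm⟩
          · exact ⟨Set.univ, MeasurableSet.univ, rfl⟩
        obtain ⟨B, hB, hBe⟩ := hfa
        have hA' : MeasurableSet[GS π (I : Set ℝ≥0)] (⋂ x ∈ T.erase a, f x) := by
          refine @Finset.measurableSet_biInter _ _ (GS π (I : Set ℝ≥0)) _ _ fun x hx => ?_
          have hxT := (Finset.mem_erase.1 hx).2
          have hxI : x ∈ I := by
            have := hT hxT
            rcases Finset.mem_insert.1 (Finset.mem_coe.1 this) with h | h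
            · exact absurd h (Finset.mem_erase.1 hx).1
            · exact h
          have h1 : MeasurableSpace.comap (fun ω => ∑ j, π.X x ω j) inferInstance ≤
              GS π (I : Set ℝ≥0) := by
            unfold GS
            exact le_iSup₂_of_le x hxI le_rfl
          exact h1 _ (hf x hxT)
        rw [hset, hBe]
        exact cyl hGIN hONE π i k (I : Set ℝ≥0) hs hsa hY hIH hA' hB
      · rw [Qapp hGIN π i a MeasurableSet.univ, Qapp hGIN π k a MeasurableSet.univ,
          start hONE, start hONE]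
    intro r hr i k A hA
    have har : a ≤ r := hr a (Finset.mem_insert_self _ _)
    rw [Qapp hGIN π i r (hm _ hA), Qapp hGIN π k r (hm _ hA), shift hONE π i har (hgs _ hA),
      shift hONE π k har (hgs _ hA), ← Qapp hGIN π i a (hm _ hA), ← Qapp hGIN π k a (hm _ hA)]
    exact hmain i k A hA

end

theorem t_QIN (hGIN : S_GIN.{u}) (hONE : S_ONE.{u}) : S_QIN.{u} := by
  intro N μ Ω mΩ P _ π i k t A hA
  have hle := GS_le π (S := Set.Iic t) (r := t) (fun x hx => hx)
  have hm : GS π (Set.Iic t) ≤ mΩ := hle.trans (π.full.le t)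
  have hA' : MeasurableSet A := hm _ hA
  have key : QQ π i t A = QQ π k t A := by
    apply extend hGIN π i k t (Set.Iic t) hm _ _ A hA
    · rintro B ⟨T, hT, f, hf, rfl⟩
      apply finR hGIN hONE π T t (fun x hx => hT hx) i k
      refine @Finset.measurableSet_biInter _ _ (GS π (T : Set ℝ≥0)) _ _ fun x hx => ?_
      have h1 : MeasurableSpace.comap (fun ω => ∑ j, π.X x ω j) inferInstance ≤
          GS π (T : Set ℝ≥0) := by
        unfold GS
        exact le_iSup₂_of_le x hx le_rfl
      exact h1 _ (hf x hx)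
    · rw [Qapp hGIN π i t MeasurableSet.univ, Qapp hGIN π k t MeasurableSet.univ,
        start hONE, start hONE]
  rw [Qapp hGIN π i t hA', Qapp hGIN π k t hA'] at key
  have n1 : 0 ≤ ∫ ω in A ∩ π.jstar ⁻¹' {i}, WW π i t ω ∂P :=
    integral_nonneg fun ω => Wnn π i t ω
  have n2 : 0 ≤ ∫ ω in A ∩ π.jstar ⁻¹' {k}, WW π k t ω ∂P :=
    integral_nonneg fun ω => Wnn π k t ω
  exact (ENNReal.ofReal_eq_ofReal_iff n1 n2).1 key

end H31.FL
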